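import Pool.Agent.Q115.KR.Gen
set_option autoImplicit false

/-!
Roots `ω ^ l u_k ^ M`, where the unit `u_k` is large at the place number `k` and small at the other
ones.
-/

namespace Pool.Agent.Q115.KR

open Pool.Agent.TH265.V
open Pool.Agent.TH826.MK (Torus symb)
open NumberField

universe u v

/-- the number of roots, minus one -/
abbrev nr (q t : ℕ) : ℕ := t * (q + 1) + q

/-- The number of the block of the index `i`: the quotient `i / (q + 1)`. -/
def blk {q t : ℕ} (i : Fin (nr q t + 1)) : Fin (t + 1) :=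
  ⟨(i : ℕ) / (q + 1), by
    have h := i.isLt
    rw [Nat.div_lt_iff_lt_mul (Nat.succ_pos q)]
    have e : nr q t + 1 = (t + 1) * (q + 1) := by unfold nr; ring
    show (i : ℕ) < (t + 1) * (q + 1)
    rw [← e]
    exact h⟩

/-- The roots `ω ^ i U_k`, `k = i / (q + 1)`. -/
def al2 {K : Type*} [Field K] {q t : ℕ} (ω : K) (U : Fin (t + 1) → K) (i : Fin (nr q t + 1)) :
    K := ω ^ (i : ℕ) * U (blk i)

section sep

variable {q t : ℕ} {w : ℂ} {U : Fin (t + 1) → ℂ}

theorem norm_al2 (hw : IsPrimitiveRoot w (q + 1)) (i : Fin (nr q t + 1)) :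
    ‖al2 w U i‖ = ‖U (blk i)‖ := by
  unfold al2
  rw [norm_mul, norm_pow, hw.norm'_eq_one (Nat.succ_ne_zero q), one_pow, one_mul]

theorem sep_blk {d : ℝ} (hw : IsPrimitiveRoot w (q + 1))
    (hd : ∀ i j : Fin (q + 1), i ≠ j → d ≤ ‖w ^ (i : ℕ) - w ^ (j : ℕ)‖)
    {i j : Fin (nr q t + 1)} (hij : i ≠ j) (hl : blk i = blk j) :
    d ≤ ‖w ^ (i : ℕ) - w ^ (j : ℕ)‖ := by
  rw [pow_mod hw i, pow_mod hw j]
  refine hd ⟨(i : ℕ) % (q + 1), Nat.mod_lt _ (Nat.succ_pos q)⟩
    ⟨(j : ℕ) % (q + 1), Nat.mod_lt _ (Nat.succ_pos q)⟩ ?_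
  intro h
  have h1 : (i : ℕ) % (q + 1) = (j : ℕ) % (q + 1) := congrArg Fin.val h
  have h2 : (i : ℕ) / (q + 1) = (j : ℕ) / (q + 1) := congrArg Fin.val hl
  apply hij
  apply Fin.ext
  rw [← Nat.mod_add_div (i : ℕ) (q + 1), ← Nat.mod_add_div (j : ℕ) (q + 1), h1, h2]

theorem sep_al2 {d : ℝ} (hd0 : 0 < d) (hd1 : d ≤ 1 / 2) (hw : IsPrimitiveRoot w (q + 1))
    (hd : ∀ i j : Fin (q + 1), i ≠ j → d ≤ ‖w ^ (i : ℕ) - w ^ (j : ℕ)‖)
    (hU : ∀ k, U k ≠ 0) {i0 : Fin (nr q t + 1)} (h : ∀ k, k ≠ blk i0 → 2 * ‖U k‖ ≤ ‖U (blk i0)‖) :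
    Sep d (al2 w U) i0 := by
  have hw0 : w ≠ 0 := hw.ne_zero (Nat.succ_ne_zero q)
  refine ⟨hd0, hd1, fun i => mul_ne_zero (pow_ne_zero _ hw0) (hU _), fun i => ?_, fun i hi => ?_⟩
  · rw [norm_al2 hw, norm_al2 hw]
    by_cases hi : blk i = blk i0
    · rw [hi]
    · have := h _ hi
      have := norm_nonneg (U (blk i))
      linarith
  · rw [norm_al2 hw]
    by_cases hb : blk i = blk i0
    · unfold al2
      rw [hb, ← sub_mul, norm_mul]
      exact mul_le_mul_of_nonneg_right (sep_blk hw hd hi hb) (norm_nonneg _)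
    · have h1 := h _ hb
      have h2 := norm_sub_norm_le (al2 w U i0) (al2 w U i)
      rw [norm_al2 hw, norm_al2 hw, norm_sub_rev] at h2
      have h3 : d * ‖U (blk i0)‖ ≤ 1 / 2 * ‖U (blk i0)‖ :=
        mul_le_mul_of_nonneg_right hd1 (norm_nonneg _)
      linarith

end sep

/-- first index of the block -/
def fst {q t : ℕ} (k : Fin (t + 1)) : Fin (nr q t + 1) :=
  ⟨(k : ℕ) * (q + 1), by
    have h := k.isLt
    have e : nr q t + 1 = (t + 1) * (q + 1) := by unfold nr; ring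
    rw [e]
    exact Nat.mul_lt_mul_of_pos_right h (Nat.succ_pos q)⟩

theorem blk_fst {q t : ℕ} (k : Fin (t + 1)) : blk (fst (q := q) k) = k := by
  apply Fin.ext
  show (k : ℕ) * (q + 1) / (q + 1) = k
  exact Nat.mul_div_cancel _ (Nat.succ_pos q)

/-- the condition on the units -/
def UnitsAt {K : Type u} [Field K] [NumberField K] {t : ℕ} (v : Fin (t + 1) → InfinitePlace K)
    (e : Fin (t + 1) → (𝓞 K)ˣ) : Prop :=
  ∀ k, 1 < v k (e k : K) ∧ ∀ l, l ≠ k → v l (e k : K) < 1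

theorem exists_unitsAt {K : Type u} [Field K] [NumberField K] {t : ℕ} (ht : 1 ≤ t)
    (v : Fin (t + 1) → InfinitePlace K) (hv : Function.Injective v) :
    ∃ e : Fin (t + 1) → (𝓞 K)ˣ, UnitsAt v e := by
  choose e he using fun k => Units.dirichletUnitTheorem.exists_unit K (v k)
  refine ⟨e, fun k => ?_⟩
  have hlt : ∀ w : InfinitePlace K, w ≠ v k → w (e k : K) < 1 := by
    intro w hw
    have hpos : 0 < w (e k : K) := InfinitePlace.pos_iff.2 (Units.coe_ne_zero (e k))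
    by_contra hcon
    have := Real.log_nonneg (not_lt.1 hcon)
    have := he k w hw
    linarith
  refine ⟨?_, fun l hl => hlt _ fun h => hl (hv h)⟩
  have hsum := Units.sum_mult_mul_log (e k)
  have hl : ∃ l : Fin (t + 1), l ≠ k := by
    have : Nontrivial (Fin (t + 1)) := Fin.nontrivial_iff_two_le.2 (by omega)
    exact exists_ne k
  obtain ⟨l, hlk⟩ := hl
  have hvl : v l ≠ v k := fun h => hlk (hv h)
  by_contra hcon
  have hpos : 0 < v k (e k : K) := InfinitePlace.pos_iff.2 (Units.coe_ne_zero (e k))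
  have hk : Real.log (v k (e k : K)) ≤ 0 := Real.log_nonpos hpos.le (not_lt.1 hcon)
  have hneg : ∑ w : InfinitePlace K, (w.mult : ℝ) * Real.log (w (e k : K)) < 0 := by
    refine Finset.sum_neg' (fun w _ => ?_) ⟨v l, Finset.mem_univ _, ?_⟩
    · by_cases hw : w = v k
      · rw [hw]
        exact mul_nonpos_of_nonneg_of_nonpos (Nat.cast_nonneg _) hk
      · exact mul_nonpos_of_nonneg_of_nonpos (Nat.cast_nonneg _) (he k w hw).le
    · exact mul_neg_of_pos_of_neg (Nat.cast_pos.2 InfinitePlace.mult_pos) (he k _ hvl)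
  linarith

theorem all_det (p q t : ℕ) (ht : 1 ≤ t) {K : Type u} [Field K] [NumberField K] (ζ ω : K)
    (hζ : IsPrimitiveRoot ζ (p + 1)) (hω : IsPrimitiveRoot ω (q + 1))
    (v : Fin (t + 1) → InfinitePlace K) (e : Fin (t + 1) → (𝓞 K)ˣ) (he : UnitsAt v e) :
    ∃ M₀ : ℕ, ∀ M ≥ M₀, Function.Injective (al2 (q := q) ω (fun k => (e k : K) ^ M)) ∧
      IndependentRegulators p ζ (al2 (q := q) ω (fun k => (e k : K) ^ M))
        (fun i => (v (blk i)).embedding) := by
  classical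
  obtain ⟨d, hd0, hd1, hd⟩ := exists_sep q
  obtain ⟨D1, hD1, h⟩ := exists_det.{u} p (nr q t) d
  -- the exponents
  have hlog : ∀ k, 0 < Real.log (v k (e k : K)) := fun k => Real.log_pos (he k).1
  have hM : ∀ k, ∃ M : ℕ, ∀ m ≥ M, max D1 (Real.log 2) ≤ m * Real.log (v k (e k : K)) := by
    intro k
    obtain ⟨M, hM⟩ := exists_nat_ge (max D1 (Real.log 2) / Real.log (v k (e k : K)))
    refine ⟨M, fun m hm => ?_⟩
    rw [div_le_iff₀ (hlog k)] at hM
    refine hM.trans (mul_le_mul_of_nonneg_right (by exact_mod_cast hm) (hlog k).le)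
  choose Mk hMk using hM
  refine ⟨∑ k, Mk k, fun M hMM => ?_⟩
  have hMk' : ∀ k, max D1 (Real.log 2) ≤ M * Real.log (v k (e k : K)) := fun k =>
    hMk k M ((Finset.single_le_sum (f := Mk) (fun _ _ => Nat.zero_le _)
      (Finset.mem_univ k)).trans hMM)
  set U : Fin (t + 1) → K := fun k => (e k : K) ^ M with hU
  have hU0 : ∀ k, U k ≠ 0 := fun k => pow_ne_zero _ (Units.coe_ne_zero (e k))
  have hnorm : ∀ (l k : Fin (t + 1)), ‖(v l).embedding (U k)‖ = v l (e k : K) ^ M := by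
    intro l k
    rw [hU, InfinitePlace.norm_embedding_eq, map_pow]
  have hbig : ∀ k, 2 ≤ ‖(v k).embedding (U k)‖ := by
    intro k
    rw [hnorm, ← Real.log_le_log_iff two_pos (pow_pos (lt_trans one_pos (he k).1) _),
      Real.log_pow]
    exact (le_max_right _ _).trans (hMk' k)
  have hsm : ∀ l k, l ≠ k → ‖(v l).embedding (U k)‖ ≤ 1 := by
    intro l k hlk
    rw [hnorm]
    exact pow_le_one₀ (apply_nonneg _ _) ((he k).2 l hlk).le
  have hmap : ∀ i : Fin (nr q t + 1),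
      (fun k : Fin (nr q t + 1) => (v (blk i)).embedding (al2 ω U k)) =
      al2 (q := q) ((v (blk i)).embedding ω) (fun k => (v (blk i)).embedding (U k)) := by
    intro i
    funext k
    unfold al2
    rw [map_mul, map_pow]
  have hωi : ∀ i : Fin (nr q t + 1), IsPrimitiveRoot ((v (blk i)).embedding ω) (q + 1) :=
    fun i => hω.map_of_injective (v (blk i)).embedding.injective
  have hsep : ∀ i : Fin (nr q t + 1),
      Sep d (fun k : Fin (nr q t + 1) => (v (blk i)).embedding (al2 ω U k)) i := by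
    intro i
    rw [hmap]
    refine sep_al2 hd0 hd1 (hωi i) (hd _ (hωi i)) (fun k => (map_ne_zero _).2 (hU0 k)) ?_
    intro k hk
    have h1 := hsm (blk i) k (Ne.symm hk)
    have h2 := hbig (blk i)
    linarith
  have hval : ∀ i : Fin (nr q t + 1),
      M * Real.log (v (blk i) (e (blk i) : K)) ≤
        Dd (fun k : Fin (nr q t + 1) => (v (blk i)).embedding (al2 ω U k)) i ∧
      Real.log ‖(v (blk i)).embedding (al2 ω U i)‖ = M * Real.log (v (blk i) (e (blk i) : K)) := by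
    intro i
    have e1 : ∀ k : Fin (nr q t + 1), ‖(v (blk i)).embedding (al2 ω U k)‖ =
        ‖(v (blk i)).embedding (U (blk k))‖ := by
      intro k
      have h1 : (v (blk i)).embedding (al2 ω U k) = al2 (q := q) ((v (blk i)).embedding ω)
        (fun k => (v (blk i)).embedding (U k)) k := congrFun (hmap i) k
      rw [h1, norm_al2 (hωi i)]
    have e2 : Real.log ‖(v (blk i)).embedding (al2 ω U i)‖ =
        M * Real.log (v (blk i) (e (blk i) : K)) := by
      rw [e1, hnorm, Real.log_pow]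
    refine ⟨?_, e2⟩
    have hl : ∃ l : Fin (t + 1), l ≠ blk i := by
      have : Nontrivial (Fin (t + 1)) := Fin.nontrivial_iff_two_le.2 (by omega)
      exact exists_ne _
    obtain ⟨l, hl⟩ := hl
    have h3 := Dd_ge (hsep i) (fst l)
    have h4 : Real.log ‖(v (blk i)).embedding (al2 (q := q) ω U (fst l))‖ ≤ 0 := by
      rw [e1, blk_fst]
      exact Real.log_nonpos (norm_nonneg _) (hsm _ _ (Ne.symm hl))
    rw [e2] at h3
    linarith
  have hpos : ∀ k, 0 ≤ M * Real.log (v k (e k : K)) := fun k =>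
    mul_nonneg (Nat.cast_nonneg _) (hlog k).le
  obtain ⟨Γ, hΓ1, hΓ2⟩ := h ζ (al2 ω U) (fun i => (v (blk i)).embedding) hζ hsep
    (fun i => by
      rw [(hval i).2, abs_of_nonneg (hpos _)]
      exact (hval i).1)
    (fun i => ((le_max_left _ _).trans (hMk' _)).trans (hval i).1)
  refine ⟨?_, Γ, hΓ1, hΓ2⟩
  intro i j hij
  by_contra hne
  have h1 := (hsep j).sep i hne
  rw [hij, sub_self, norm_zero] at h1
  have h2 := mul_pos hd0 (hsep j).m_pos
  linarith

section eqn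

variable {K : Type*} [Field K] {q : ℕ} {ω : K}

theorem prod_al2 (hω : IsPrimitiveRoot ω (q + 1)) {t : ℕ} (U : Fin (t + 1) → K) :
    ∏ i : Fin (nr q t + 1), (1 - MvPolynomial.C (al2 ω U i)⁻¹ * MvPolynomial.X 1 :
      MvPolynomial (Fin (1 + 1)) K) =
      ∏ k : Fin (t + 1), (1 - MvPolynomial.C (U k ^ (q + 1))⁻¹ * MvPolynomial.X 1 ^ (q + 1)) := by
  classical
  have hω' : IsPrimitiveRoot (MvPolynomial.C ω⁻¹ : MvPolynomial (Fin (1 + 1)) K) (q + 1) :=
    hω.inv.map_of_injective (MvPolynomial.C_injective _ _)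
  rw [← Finset.prod_fiberwise_of_maps_to (s := Finset.univ) (t := Finset.univ) (g := blk)
    (fun _ _ => Finset.mem_univ _)]
  refine Finset.prod_congr rfl fun k _ => ?_
  have h2 := prod_roots2 hω' 1 (MvPolynomial.C (U k)⁻¹ * MvPolynomial.X 1)
  rw [one_pow, mul_pow, ← map_pow, inv_pow] at h2
  rw [← h2]
  symm
  refine Finset.prod_bij (fun (j : Fin (q + 1)) _ => (⟨(k : ℕ) * (q + 1) + j, by
    have h := k.isLt
    have hj := j.isLt
    have e : nr q t + 1 = (t + 1) * (q + 1) := by unfold nr; ring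
    rw [e]
    calc (k : ℕ) * (q + 1) + j < (k : ℕ) * (q + 1) + (q + 1) := by omega
      _ = ((k : ℕ) + 1) * (q + 1) := by ring
      _ ≤ (t + 1) * (q + 1) := Nat.mul_le_mul_right _ h⟩ : Fin (nr q t + 1))) ?_ ?_ ?_ ?_
  · intro j _
    rw [Finset.mem_filter]
    refine ⟨Finset.mem_univ _, Fin.ext ?_⟩
    show ((k : ℕ) * (q + 1) + j) / (q + 1) = k
    rw [mul_comm, Nat.mul_add_div (Nat.succ_pos q), Nat.div_eq_of_lt j.isLt, add_zero]
  · intro j _ j' _ h
    have := congrArg Fin.val h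
    simp only at this
    exact Fin.ext (by omega)
  · intro i hi
    rw [Finset.mem_filter] at hi
    refine ⟨⟨(i : ℕ) % (q + 1), Nat.mod_lt _ (Nat.succ_pos q)⟩, Finset.mem_univ _, Fin.ext ?_⟩
    have h1 : (i : ℕ) / (q + 1) = k := congrArg Fin.val hi.2
    show (k : ℕ) * (q + 1) + (i : ℕ) % (q + 1) = i
    rw [← h1, mul_comm]
    exact Nat.div_add_mod _ _
  · intro j _
    have hb : blk (⟨(k : ℕ) * (q + 1) + j, by
      have h := k.isLt
      have hj := j.isLt
      have e : nr q t + 1 = (t + 1) * (q + 1) := by unfold nr; ring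
      rw [e]
      calc (k : ℕ) * (q + 1) + j < (k : ℕ) * (q + 1) + (q + 1) := by omega
        _ = ((k : ℕ) + 1) * (q + 1) := by ring
        _ ≤ (t + 1) * (q + 1) := Nat.mul_le_mul_right _ h⟩ : Fin (nr q t + 1)) = k := by
      apply Fin.ext
      show ((k : ℕ) * (q + 1) + j) / (q + 1) = k
      rw [mul_comm, Nat.mul_add_div (Nat.succ_pos q), Nat.div_eq_of_lt j.isLt, add_zero]
    unfold al2
    rw [hb]
    have h3 : ω ^ ((k : ℕ) * (q + 1) + (j : ℕ)) = ω ^ (j : ℕ) := by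
      rw [pow_add, mul_comm (k : ℕ), pow_mul, hω.pow_eq_one, one_pow, one_mul]
    show 1 - MvPolynomial.C ω⁻¹ ^ (j : ℕ) * (MvPolynomial.C (U k)⁻¹ * MvPolynomial.X 1) =
      1 - MvPolynomial.C (ω ^ ((k : ℕ) * (q + 1) + (j : ℕ)) * U k)⁻¹ * MvPolynomial.X 1
    rw [h3, mul_inv, map_mul, ← map_pow, inv_pow, mul_assoc]

end eqn

end Pool.Agent.Q115.KR
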