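import Pool.Agent.Q115.KR.Sep
set_option autoImplicit false

/-!
The curve is irreducible and the symbols are unramified, for arbitrary units `α i`.
-/

namespace Pool.Agent.Q115.KR

open Pool.Agent.TH265.V
open Pool.Agent.TH265.U (toLoc liftLoc liftLoc_toLoc)
open Pool.Agent.TH826.MK (Torus symb KQ Unramified)

universe u v

variable {K : Type u} [Field K] {p r : ℕ} {ζ : K} {α : Fin (r + 1) → K}

theorem isDomain_crv [Infinite K] (hζ : IsPrimitiveRoot ζ (p + 1)) (h0 : ∀ i, α i ≠ 0)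
    (hinj : Function.Injective α) : IsDomain (Crv p ζ α) :=
  Pool.Agent.TH826.MH.isDomain_CRing (m := 0) (lm α) (rts p ζ α) (lm_ne_zero h0) (by
    intro k
    refine Fin.cases ?_ (fun l => ?_) k
    · intro i j hij
      exact Fin.ext (hζ.pow_inj i.isLt j.isLt hij)
    · exact hinj)

theorem unramified_crv (hζ : IsPrimitiveRoot ζ (p + 1)) (h0 : ∀ i, α i ≠ 0)
    (hi : ∀ i, IsIntegral ℤ (α i)) (hi' : ∀ i, IsIntegral ℤ (α i)⁻¹)
    (Γ : Torus (Opn p ζ α) 1) : UnramifiedSymbols.{u, v} p ζ α := by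
  intro L _ _ _
  have hinj : Function.Injective (algebraMap (Crv p ζ α) L) := IsFractionRing.injective _ _
  have hx1 : algebraMap (Crv p ζ α) L (fX p ζ α) ≠ 0 := by
    rw [Ne, map_eq_zero_iff _ hinj]
    exact fX_ne_zero_of_torus p ζ Γ
  exact ⟨liftLoc (fX p ζ α) (algebraMap (Crv p ζ α) L) hx1,
    fun b => liftLoc_toLoc _ _ _ _,
    fun s => sym_mem_unramified _ hζ hi hi' h0 s⟩

end Pool.Agent.Q115.KR
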