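import Pool.Agent.Q115.KR.CubDet
import Pool.Agent.Q115.KR.Gen
set_option autoImplicit false

/-!
The curves `(1 - y^(p+1)) (1 - x) (1 - ε x) (1 + (1 + ε) x) = 1`.
-/

namespace Pool.Agent.Q115.KR

open Pool.Agent.TH265.V
open Pool.Agent.TH826.MH (eqn)

section

variable {K : Type*} [Field K]

/-- The polynomial `(1 - y^(p+1)) (1 - x) (1 - ε x) (1 + (1 + ε) x) - 1` (`y`, `x` are the
variables number `0`, `1`). -/
noncomputable def cpoly (p : ℕ) (ε : K) : MvPolynomial (Fin (1 + 1)) K :=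
  (1 - MvPolynomial.X 0 ^ (p + 1)) * ((1 - MvPolynomial.X 1) *
    (1 - MvPolynomial.C ε * MvPolynomial.X 1) *
    (1 + MvPolynomial.C (1 + ε) * MvPolynomial.X 1)) - 1

theorem eqn_ac {p : ℕ} {ζ ε : K} (hζ : IsPrimitiveRoot ζ (p + 1)) (h0 : ε ≠ 0)
    (h1 : 1 + ε ≠ 0) : eqn (lm (ac ε)) (rts p ζ (ac ε)) = cpoly p ε := by
  rw [eqn_eq hζ (ac_ne_zero h0 h1)]
  have e : ∏ i : Fin (2 + 1), (1 - MvPolynomial.C (ac ε i)⁻¹ * MvPolynomial.X 1 :
      MvPolynomial (Fin (1 + 1)) K) = (1 - MvPolynomial.X 1) *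
        (1 - MvPolynomial.C ε * MvPolynomial.X 1) *
        (1 + MvPolynomial.C (1 + ε) * MvPolynomial.X 1) := by
    rw [Fin.prod_univ_three]
    have e0 : (ac ε 0)⁻¹ = 1 := by simp [ac]
    have e1 : (ac ε 1)⁻¹ = ε := by simp [ac]
    have e2 : (ac ε 2)⁻¹ = -(1 + ε) := by simp [ac, inv_neg]
    rw [e0, e1, e2, map_neg, map_one, one_mul]
    ring
  rw [e]
  rfl

theorem cpoly_eq (p : ℕ) (ε : K) : cpoly p ε = (1 - MvPolynomial.X 0 ^ (p + 1)) *
    (1 - MvPolynomial.C (1 + ε + ε ^ 2) * MvPolynomial.X 1 ^ 2 +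
      MvPolynomial.C (ε * (1 + ε)) * MvPolynomial.X 1 ^ 3) - 1 := by
  unfold cpoly
  simp only [map_add, map_mul, map_one, map_pow]
  ring

theorem smooth_cpoly {p : ℕ} {ε : K} (h0 : ε ≠ 0) (h1 : 1 + ε ≠ 0) (ρ : K →+* ℂ) :
    SmoothOff (cpoly p ε) ρ := by
  intro x hx hx1
  by_contra hcon
  push Not at hcon
  have g0 := hcon 0
  have g1 := hcon 1
  have h10 : MvPolynomial.pderiv (0 : Fin (1 + 1)) (MvPolynomial.X 1 : MvPolynomial _ K) = 0 :=
    MvPolynomial.pderiv_X_of_ne (by decide)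
  have h00 : MvPolynomial.pderiv (0 : Fin (1 + 1)) (MvPolynomial.X 0 : MvPolynomial _ K) = 1 :=
    MvPolynomial.pderiv_X_self 0
  have h11 : MvPolynomial.pderiv (1 : Fin (1 + 1)) (MvPolynomial.X 1 : MvPolynomial _ K) = 1 :=
    MvPolynomial.pderiv_X_self 1
  have h01 : MvPolynomial.pderiv (1 : Fin (1 + 1)) (MvPolynomial.X 0 : MvPolynomial _ K) = 0 :=
    MvPolynomial.pderiv_X_of_ne (by decide)
  rw [cpoly_eq] at hx g0 g1
  simp only [map_sub, map_add, MvPolynomial.pderiv_mul, MvPolynomial.pderiv_pow, h10, h00, h11,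
    h01, MvPolynomial.pderiv_C, MvPolynomial.pderiv_one] at g0 g1
  simp only [Nat.add_sub_cancel, MvPolynomial.eval₂_sub, MvPolynomial.eval₂_mul,
    MvPolynomial.eval₂_add, MvPolynomial.eval₂_pow, MvPolynomial.eval₂_X, MvPolynomial.eval₂_C,
    MvPolynomial.eval₂_one, MvPolynomial.eval₂_zero, MvPolynomial.eval₂_natCast,
    mul_zero, zero_mul, sub_zero, add_zero, mul_one, map_add, map_mul, map_one, map_pow]
    at hx g0 g1
  set e : ℂ := ρ ε with he
  have he0 : e ≠ 0 := (map_ne_zero ρ).2 h0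
  have he1 : 1 + e ≠ 0 := by
    have : 1 + e = ρ (1 + ε) := by rw [map_add, map_one]
    rw [this]
    exact (map_ne_zero ρ).2 h1
  set A : ℂ := 1 - (1 + e + e ^ 2) * x 1 ^ 2 + e * (1 + e) * x 1 ^ 3 with hA
  have hA0 : A ≠ 0 := by
    intro h
    rw [h] at hx
    simp at hx
  have hp1 : ((p : ℂ) + 1) ≠ 0 := Nat.cast_add_one_ne_zero p
  have hy : x 0 = 0 := by
    have h2 : ((p : ℂ) + 1) * x 0 ^ p * A = 0 := by
      have := g0
      push_cast at this
      linear_combination -this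
    have h3 := (mul_eq_zero.1 h2).resolve_right hA0
    exact eq_zero_of_pow_eq_zero ((mul_eq_zero.1 h3).resolve_left hp1)
  rw [hy, zero_pow (Nat.succ_ne_zero p)] at hx g1
  have hB : e * (1 + e) * x 1 = 1 + e + e ^ 2 := by
    have h3 : x 1 ^ 2 * (e * (1 + e) * x 1 - (1 + e + e ^ 2)) = 0 := by
      rw [hA] at hx
      linear_combination hx
    have h4 := (mul_eq_zero.1 h3).resolve_left (pow_ne_zero _ hx1)
    linear_combination h4
  have h5 : x 1 * (3 * (e * (1 + e) * x 1) - 2 * (1 + e + e ^ 2)) = 0 := by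
    push_cast at g1
    linear_combination g1
  have h6 := (mul_eq_zero.1 h5).resolve_left hx1
  rw [hB] at h6
  have h7 : 1 + e + e ^ 2 = 0 := by linear_combination h6
  rw [h7] at hB
  exact mul_ne_zero (mul_ne_zero he0 he1) hx1 hB

open Polynomial in
/-- The polynomial `(1 - X) (1 - ε X) (1 + (1 + ε) X) (ε (1 + ε) X - (1 + ε + ε²))`. -/
noncomputable def quart (ε : K) : K[X] :=
  (1 - X) * (1 - C ε * X) * (1 + C (1 + ε) * X) * (C (ε * (1 + ε)) * X - C (1 + ε + ε ^ 2))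

/-- the roots of `quart` -/
def qr (ε : K) : Fin 4 → K := ![1, ε⁻¹, -(1 + ε)⁻¹, (1 + ε + ε ^ 2) / (ε * (1 + ε))]

open Polynomial in
theorem quart_eq {ε : K} (h0 : ε ≠ 0) (h1 : 1 + ε ≠ 0) :
    quart ε = C (ε ^ 2 * (1 + ε) ^ 2) * ∏ i : Fin 4, (X - C (qr ε i)) := by
  have e1 : (C ε : K[X]) * C ε⁻¹ = 1 := by rw [← C_mul, mul_inv_cancel₀ h0, C_1]
  have e2 : (C (1 + ε) : K[X]) * C (1 + ε)⁻¹ = 1 := by rw [← C_mul, mul_inv_cancel₀ h1, C_1]
  have f1 : (1 - C ε * X : K[X]) = -C ε * (X - C ε⁻¹) := by linear_combination -e1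
  have f2 : (1 + C (1 + ε) * X : K[X]) = C (1 + ε) * (X - C (-(1 + ε)⁻¹)) := by
    rw [C_neg]; linear_combination -e2
  have f3 : (C (ε * (1 + ε)) * X - C (1 + ε + ε ^ 2) : K[X]) =
      C (ε * (1 + ε)) * (X - C ((1 + ε + ε ^ 2) / (ε * (1 + ε)))) := by
    rw [mul_sub, ← C_mul, mul_div_cancel₀ _ (mul_ne_zero h0 h1)]
  have f0 : (1 - X : K[X]) = -(X - C 1) := by rw [C_1]; ring
  have e4 : ∏ i : Fin 4, (X - C (qr ε i) : K[X]) = (X - C 1) * (X - C ε⁻¹) *
      (X - C (-(1 + ε)⁻¹)) * (X - C ((1 + ε + ε ^ 2) / (ε * (1 + ε)))) := by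
    rw [Fin.prod_univ_four]
    rfl
  unfold quart
  rw [f1, f2, f3, f0, e4]
  simp only [C_mul, C_pow]
  ring

theorem qr_injective {ε : K} (h0 : ε ≠ 0) (h1 : 1 + ε ≠ 0) (h2 : ε ≠ 1) (h3 : ε ≠ -2)
    (h4 : 1 + 2 * ε ≠ 0) : Function.Injective (qr ε) := by
  have n01 : (1 : K) ≠ ε⁻¹ := by
    intro h; exact h2 (by rw [← inv_inv ε, ← h, inv_one])
  have n02 : (1 : K) ≠ -(1 + ε)⁻¹ := by
    intro h
    have : (1 + ε) = -1 := by
      field_simp at h
      linear_combination h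
    exact h3 (by linear_combination this)
  have n12 : ε⁻¹ ≠ -(1 + ε)⁻¹ := by
    intro h
    field_simp at h
    exact h4 (by linear_combination h)
  have n03 : (1 : K) ≠ (1 + ε + ε ^ 2) / (ε * (1 + ε)) := by
    intro h
    rw [eq_div_iff (mul_ne_zero h0 h1)] at h
    have : (1 : K) = 0 := by linear_combination -h
    exact one_ne_zero this
  have n13 : ε⁻¹ ≠ (1 + ε + ε ^ 2) / (ε * (1 + ε)) := by
    intro h
    rw [eq_div_iff (mul_ne_zero h0 h1), ← mul_assoc, inv_mul_cancel₀ h0, one_mul] at h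
    exact h0 (pow_eq_zero_iff (two_ne_zero) |>.1 (by linear_combination -h))
  have n23 : -(1 + ε)⁻¹ ≠ (1 + ε + ε ^ 2) / (ε * (1 + ε)) := by
    intro h
    rw [eq_div_iff (mul_ne_zero h0 h1)] at h
    have h5 : -(1 + ε)⁻¹ * (ε * (1 + ε)) = -ε := by field_simp
    rw [h5] at h
    exact h1 (pow_eq_zero_iff (two_ne_zero) |>.1 (by linear_combination -h))
  intro i j hij
  fin_cases i <;> fin_cases j <;> first
    | rfl
    | exact absurd hij n01
    | exact absurd hij n02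
    | exact absurd hij n03
    | exact absurd hij n12
    | exact absurd hij n13
    | exact absurd hij n23
    | exact absurd hij.symm n01
    | exact absurd hij.symm n02
    | exact absurd hij.symm n03
    | exact absurd hij.symm n12
    | exact absurd hij.symm n13
    | exact absurd hij.symm n23

open Polynomial in
theorem quart_natDegree {ε : K} (h0 : ε ≠ 0) (h1 : 1 + ε ≠ 0) : (quart ε).natDegree = 4 := by
  rw [quart_eq h0 h1, natDegree_C_mul (mul_ne_zero (pow_ne_zero _ h0) (pow_ne_zero _ h1)),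
    natDegree_prod_of_monic _ _ (fun i _ => monic_X_sub_C _)]
  simp

open Polynomial in
theorem quart_squarefree {ε : K} (h0 : ε ≠ 0) (h1 : 1 + ε ≠ 0) (h2 : ε ≠ 1) (h3 : ε ≠ -2)
    (h4 : 1 + 2 * ε ≠ 0) : Squarefree (quart ε) := by
  have hs : (∏ i : Fin 4, (X - C (qr ε i))).Separable :=
    (separable_prod_X_sub_C_iff).2 (qr_injective h0 h1 h2 h3 h4)
  rw [quart_eq h0 h1]
  have hu : IsUnit (C (ε ^ 2 * (1 + ε) ^ 2) : K[X]) :=
    isUnit_C.2 (isUnit_iff_ne_zero.2 (mul_ne_zero (pow_ne_zero _ h0) (pow_ne_zero _ h1)))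
  exact (Separable.unit_mul hu hs).squarefree

open Polynomial in
/-- the hyperelliptic form of the curve for `p = 1` -/
theorem quart_model (ε : K) {F : Type*} [Field F] [Algebra K F] {x y : F} (hx : x ≠ 0)
    (h : (1 - y ^ 2) * ((1 - x) * (1 - algebraMap K F ε * x) *
      (1 + algebraMap K F (1 + ε) * x)) = 1) :
    ((1 - x) * (1 - algebraMap K F ε * x) * (1 + algebraMap K F (1 + ε) * x) * y / x) ^ 2 =
      aeval x (quart ε) := by
  unfold quart
  simp only [map_mul, map_sub, map_add, map_one, aeval_X, aeval_C, map_pow]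
  simp only [map_add, map_one] at h
  set e : F := algebraMap K F ε with he
  rw [div_pow, div_eq_iff (pow_ne_zero _ hx)]
  set A : F := (1 - x) * (1 - e * x) * (1 + (1 + e) * x) with hA
  have h2 : A - 1 = x ^ 2 * (e * (1 + e) * x - (1 + e + e ^ 2)) := by
    rw [hA]; ring
  have h3 : A * y ^ 2 = A - 1 := by linear_combination -h
  calc (A * y) ^ 2 = A * (A * y ^ 2) := by ring
    _ = A * (x ^ 2 * (e * (1 + e) * x - (1 + e + e ^ 2))) := by rw [h3, h2]
    _ = _ := by ring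

end

end Pool.Agent.Q115.KR
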