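import Pool.Agent.Q115.KR.Sep
set_option autoImplicit false

/-!
The roots `1`, `ε⁻¹`, `-(1 + ε)⁻¹`: each of them is the greatest one at one of three places.
-/

namespace Pool.Agent.Q115.KR

open Pool.Agent.TH265.V
open Pool.Agent.TH826.MK (Torus symb)

universe v

/-- The roots `1`, `1/ε`, `-1/(1+ε)`. -/
def ac {K : Type*} [Field K] (ε : K) : Fin (2 + 1) → K := ![1, ε⁻¹, -(1 + ε)⁻¹]

theorem map_ac {K L : Type*} [Field K] [Field L] (f : K →+* L) (ε : K) (i : Fin (2 + 1)) :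
    f (ac ε i) = ac (f ε) i := by
  fin_cases i <;> simp [ac]

theorem ac_ne_zero {K : Type*} [Field K] {ε : K} (h0 : ε ≠ 0) (h1 : 1 + ε ≠ 0)
    (i : Fin (2 + 1)) : ac ε i ≠ 0 := by
  fin_cases i
  · simp [ac]
  · simpa [ac] using h0
  · simpa [ac] using h1

/-- the estimates at the three places -/
theorem places {c D : ℝ} (hc : 4 ≤ c) (hD : D ≤ Real.log c - 1) (i : Fin (2 + 1)) (w : ℂ)
    (h0 : w ≠ 0) (h1 : 1 + w ≠ 0)
    (h : (i = 0 ∧ c ≤ ‖w‖) ∨ (i = 1 ∧ ‖w‖ * c ≤ 1) ∨ (i = 2 ∧ ‖1 + w‖ * c ≤ 1)) :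
    Sep (1 / 2) (ac w) i ∧ |Real.log ‖ac w i‖| ≤ Dd (ac w) i ∧ D ≤ Dd (ac w) i := by
  have hc0 : (0 : ℝ) < c := by linarith
  have hlc : 1 ≤ Real.log c := by
    rw [Real.le_log_iff_exp_le hc0]
    have := Real.exp_one_lt_d9
    linarith
  have hw0 : 0 < ‖w‖ := norm_pos_iff.2 h0
  have hw1 : 0 < ‖1 + w‖ := norm_pos_iff.2 h1
  have e0 : ‖ac w 0‖ = 1 := by simp [ac]
  have e1 : ‖ac w 1‖ = ‖w‖⁻¹ := by simp [ac]
  have e2 : ‖ac w 2‖ = ‖1 + w‖⁻¹ := by simp [ac]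
  have hl2 : Real.log 2 ≤ 1 := by linarith [Real.log_two_lt_d9]
  rcases h with ⟨rfl, h⟩ | ⟨rfl, h⟩ | ⟨rfl, h⟩
  · -- `w` is large
    have h2 : ‖w‖ - 1 ≤ ‖1 + w‖ := by
      have := norm_sub_norm_le w (-1)
      rw [norm_neg, norm_one] at this
      have e : w - -1 = 1 + w := by ring
      rwa [e] at this
    have hS : Sep (1 / 2) (ac w) 0 := by
      refine sep_half (ac_ne_zero h0 h1) fun i hi => ?_
      fin_cases i
      · exact absurd rfl hi
      · show 2 * ‖ac w 1‖ ≤ ‖ac w 0‖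
        rw [e0, e1, ← div_eq_mul_inv, div_le_one hw0]
        linarith
      · show 2 * ‖ac w 2‖ ≤ ‖ac w 0‖
        rw [e0, e2, ← div_eq_mul_inv, div_le_one hw1]
        linarith
    have h3 := Dd_ge_two hS (show (1 : Fin (2 + 1)) ≠ 2 by decide)
    rw [e0, e1, e2, Real.log_one, Real.log_inv, Real.log_inv] at h3
    have h4 : Real.log c ≤ Real.log ‖w‖ := Real.log_le_log hc0 h
    have h5 : 0 ≤ Real.log ‖1 + w‖ := Real.log_nonneg (by linarith)
    refine ⟨hS, ?_, by linarith⟩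
    rw [e0, Real.log_one, abs_zero]
    linarith
  · -- `w` is small
    have hw2 : ‖w‖ ≤ 1 / 4 := by
      have : ‖w‖ * 4 ≤ ‖w‖ * c := mul_le_mul_of_nonneg_left hc hw0.le
      linarith
    have h2 : 1 - ‖w‖ ≤ ‖1 + w‖ := by
      have := norm_sub_norm_le (1 : ℂ) (-w)
      rw [norm_neg, norm_one] at this
      have e : (1 : ℂ) - -w = 1 + w := by ring
      rwa [e] at this
    have h2' : ‖1 + w‖⁻¹ ≤ 2 := by
      rw [inv_le_comm₀ hw1 two_pos]
      linarith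
    have hwi : 4 ≤ ‖w‖⁻¹ := by
      rw [le_inv_comm₀ (by norm_num) hw0]
      linarith
    have hS : Sep (1 / 2) (ac w) 1 := by
      refine sep_half (ac_ne_zero h0 h1) fun i hi => ?_
      fin_cases i
      · show 2 * ‖ac w 0‖ ≤ ‖ac w 1‖
        rw [e0, e1]
        linarith
      · exact absurd rfl hi
      · show 2 * ‖ac w 2‖ ≤ ‖ac w 1‖
        rw [e1, e2]
        linarith
    have h3 := Dd_ge_two hS (show (0 : Fin (2 + 1)) ≠ 2 by decide)
    rw [e0, e1, e2, Real.log_one, Real.log_inv, Real.log_inv] at h3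
    have h4 : Real.log c ≤ -Real.log ‖w‖ := by
      rw [← Real.log_inv]
      refine Real.log_le_log hc0 ?_
      rw [le_inv_comm₀ hc0 hw0, ← one_div, le_div_iff₀ hc0]
      exact h
    have h5 : -1 ≤ Real.log ‖1 + w‖ := by
      have h6 : Real.log (1 / 2) ≤ Real.log ‖1 + w‖ := Real.log_le_log (by norm_num) (by linarith)
      rw [one_div, Real.log_inv] at h6
      linarith
    refine ⟨hS, ?_, by linarith⟩
    rw [e1, Real.log_inv, abs_of_nonneg (by linarith)]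
    linarith
  · -- `1 + w` is small
    have hw2 : ‖1 + w‖ ≤ 1 / 4 := by
      have : ‖1 + w‖ * 4 ≤ ‖1 + w‖ * c := mul_le_mul_of_nonneg_left hc hw1.le
      linarith
    have h2 : 1 - ‖1 + w‖ ≤ ‖w‖ := by
      have := norm_sub_norm_le (1 : ℂ) (1 + w)
      rw [norm_one] at this
      have e : (1 : ℂ) - (1 + w) = -w := by ring
      rwa [e, norm_neg] at this
    have h2' : ‖w‖⁻¹ ≤ 2 := by
      rw [inv_le_comm₀ hw0 two_pos]
      linarith
    have hwi : 4 ≤ ‖1 + w‖⁻¹ := by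
      rw [le_inv_comm₀ (by norm_num) hw1]
      linarith
    have hS : Sep (1 / 2) (ac w) 2 := by
      refine sep_half (ac_ne_zero h0 h1) fun i hi => ?_
      fin_cases i
      · show 2 * ‖ac w 0‖ ≤ ‖ac w 2‖
        rw [e0, e2]
        linarith
      · show 2 * ‖ac w 1‖ ≤ ‖ac w 2‖
        rw [e1, e2]
        linarith
      · exact absurd rfl hi
    have h3 := Dd_ge_two hS (show (0 : Fin (2 + 1)) ≠ 1 by decide)
    rw [e0, e1, e2, Real.log_one, Real.log_inv, Real.log_inv] at h3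
    have h4 : Real.log c ≤ -Real.log ‖1 + w‖ := by
      rw [← Real.log_inv]
      refine Real.log_le_log hc0 ?_
      rw [le_inv_comm₀ hc0 hw1, ← one_div, le_div_iff₀ hc0]
      exact h
    have h5 : -1 ≤ Real.log ‖w‖ := by
      have h6 : Real.log (1 / 2) ≤ Real.log ‖w‖ := Real.log_le_log (by norm_num) (by linarith)
      rw [one_div, Real.log_inv] at h6
      linarith
    refine ⟨hS, ?_, by linarith⟩
    rw [e2, Real.log_inv, abs_of_nonneg (by linarith)]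
    linarith

/-- the condition on the three places -/
structure Pl {K : Type v} [Field K] (c : ℝ) (ε : K) (σ : Fin (2 + 1) → (K →+* ℂ)) : Prop where
  large : c ≤ ‖σ 0 ε‖
  small : ‖σ 1 ε‖ * c ≤ 1
  near : ‖1 + σ 2 ε‖ * c ≤ 1

theorem Pl.ne_zero {K : Type v} [Field K] {c : ℝ} {ε : K} {σ : Fin (2 + 1) → (K →+* ℂ)}
    (hc : 4 ≤ c) (h : Pl c ε σ) : ε ≠ 0 := by
  rintro rfl
  have := h.large
  rw [map_zero, norm_zero] at this
  linarith

theorem Pl.one_add_ne_zero {K : Type v} [Field K] {c : ℝ} {ε : K}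
    {σ : Fin (2 + 1) → (K →+* ℂ)} (hc : 4 ≤ c) (h : Pl c ε σ) : 1 + ε ≠ 0 := by
  intro h1
  have h2 := h.large
  have h3 : ε = -1 := by linear_combination h1
  rw [h3, map_neg, map_one, norm_neg, norm_one] at h2
  linarith

theorem cubic_det (p : ℕ) : ∃ c : ℝ, 4 ≤ c ∧
    ∀ {K : Type v} [Field K] (σ : Fin (2 + 1) → (K →+* ℂ)) (ζ ε : K),
      IsPrimitiveRoot ζ (p + 1) → Pl c ε σ →
      ∃ Γ : Fin (2 + 1) × Fin p → Torus (Opn p ζ (ac ε)) 1,
        (∀ t θ x, (Γ t).e θ (cst0 p ζ (ac ε) x) = σ t.1 x) ∧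
        (Matrix.of fun t s => (Γ t).reg (symb (sym p ζ (ac ε) s))).det ≠ 0 := by
  obtain ⟨D1, hD1, h⟩ := exists_det.{v} p 2 (1 / 2)
  refine ⟨max 4 (Real.exp (D1 + 1)), le_max_left _ _, ?_⟩
  intro K _ σ ζ ε hζ hP
  set c := max 4 (Real.exp (D1 + 1)) with hc
  have hc4 : 4 ≤ c := le_max_left _ _
  have hcD : D1 ≤ Real.log c - 1 := by
    have h1 : Real.log (Real.exp (D1 + 1)) ≤ Real.log c :=
      Real.log_le_log (Real.exp_pos _) (le_max_right _ _)
    rw [Real.log_exp] at h1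
    linarith
  have h0 := hP.ne_zero hc4
  have h1 := hP.one_add_ne_zero hc4
  have key : ∀ i : Fin (2 + 1), Sep (1 / 2) (fun k => σ i (ac ε k)) i ∧
      |Real.log ‖σ i (ac ε i)‖| ≤ Dd (fun k => σ i (ac ε k)) i ∧
      D1 ≤ Dd (fun k => σ i (ac ε k)) i := by
    intro i
    have e : (fun k => σ i (ac ε k)) = ac (σ i ε) := funext fun k => map_ac _ _ _
    rw [e, map_ac]
    refine places hc4 hcD i (σ i ε) ((map_ne_zero _).2 h0) ?_ ?_
    · have : 1 + σ i ε = σ i (1 + ε) := by rw [map_add, map_one]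
      rw [this]
      exact (map_ne_zero _).2 h1
    · fin_cases i
      · exact Or.inl ⟨rfl, hP.large⟩
      · exact Or.inr (Or.inl ⟨rfl, hP.small⟩)
      · exact Or.inr (Or.inr ⟨rfl, hP.near⟩)
  exact h ζ (ac ε) σ hζ (fun i => (key i).1) (fun i => (key i).2.1) (fun i => (key i).2.2)

end Pool.Agent.Q115.KR
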