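import Mathlib
set_option autoImplicit false

/-!
The cubic fields defined by `X (X + 1) (X - a) + δ (X + 1) - δ' X`, `δ, δ' = ± 1`.
-/

namespace Pool.Agent.Q115.KR

open Polynomial

/-- The polynomial `X (X + 1) (X - a) + δ (X + 1) - δ' X`. -/
noncomputable def cub (a δ δ' : ℤ) : ℤ[X] :=
  X * (X + 1) * (X - C a) + C δ * (X + 1) - C δ' * X

theorem eval_cub (a δ δ' x : ℤ) : (cub a δ δ').eval x =
    x * (x + 1) * (x - a) + δ * (x + 1) - δ' * x := by
  unfold cub
  simp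

theorem aeval_cub {F : Type*} [CommRing F] (a δ δ' : ℤ) (x : F) : aeval x (cub a δ δ') =
    x * (x + 1) * (x - a) + δ * (x + 1) - δ' * x := by
  unfold cub
  simp

theorem cub_monic_natDegree (a δ δ' : ℤ) : (cub a δ δ').Monic ∧ (cub a δ δ').natDegree = 3 := by
  have e : cub a δ δ' = C 1 * X ^ 3 + C (1 - a) * X ^ 2 + C (-a + δ - δ') * X + C δ := by
    unfold cub
    simp only [C_sub, C_add, C_neg, C_1]
    ring
  have h3 : (cub a δ δ').natDegree = 3 := by
    rw [e]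
    exact natDegree_cubic one_ne_zero
  refine ⟨?_, h3⟩
  unfold Monic
  rw [e]
  exact leadingCoeff_cubic one_ne_zero

variable {a δ δ' : ℤ}

theorem cub_irreducible (hδ : δ = 1 ∨ δ = -1) (hδ' : δ' = 1 ∨ δ' = -1) :
    Irreducible (cub a δ δ') := by
  obtain ⟨hm, h3⟩ := cub_monic_natDegree a δ δ'
  rw [hm.irreducible_iff_roots_eq_zero_of_degree_le_three (by omega) (by omega)]
  rw [Multiset.eq_zero_iff_forall_notMem]
  intro n hn
  have h0 : (cub a δ δ').eval n = 0 := (mem_roots'.1 hn).2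
  rw [eval_cub] at h0
  have hdvd : n ∣ δ := by
    refine ⟨-((n + 1) * (n - a) + δ - δ'), ?_⟩
    linear_combination h0
  have hn1 : n = 1 ∨ n = -1 := by
    have h1 : n ∣ 1 := by
      rcases hδ with h | h
      · rwa [h] at hdvd
      · rw [h] at hdvd
        exact (dvd_neg.1 hdvd)
    exact Int.isUnit_iff.1 (isUnit_of_dvd_one h1)
  rcases hn1 with rfl | rfl <;> rcases hδ with rfl | rfl <;> rcases hδ' with rfl | rfl <;> omega

theorem cub_irreducible_rat (hδ : δ = 1 ∨ δ = -1) (hδ' : δ' = 1 ∨ δ' = -1) :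
    Irreducible ((cub a δ δ').map (algebraMap ℤ ℚ)) :=
  ((cub_monic_natDegree a δ δ').1.irreducible_iff_irreducible_map_fraction_map).1
    (cub_irreducible hδ hδ')

section units

variable {K : Type*} [Field K] {ε : K}

theorem cub_integral (h : aeval ε (cub a δ δ') = 0) : IsIntegral ℤ ε :=
  ⟨cub a δ δ', (cub_monic_natDegree a δ δ').1, h⟩

theorem isIntegral_int (n : ℤ) : IsIntegral ℤ (n : K) := by
  have := isIntegral_algebraMap (R := ℤ) (A := K) (x := n)
  simpa using this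

theorem cub_unit (hδ : δ = 1 ∨ δ = -1) (h : aeval ε (cub a δ δ') = 0) :
    ε ≠ 0 ∧ IsIntegral ℤ ε⁻¹ := by
  have hi := cub_integral h
  rw [aeval_cub] at h
  have hδ2 : (δ : K) * δ = 1 := by rcases hδ with rfl | rfl <;> simp
  have e1 : ε * (-(δ : K) * ((ε + 1) * (ε - a) + δ - δ')) = 1 := by
    linear_combination -(δ : K) * h + hδ2
  have h0 : ε ≠ 0 := by
    rintro rfl
    rw [zero_mul] at e1
    exact zero_ne_one e1
  refine ⟨h0, ?_⟩
  rw [inv_eq_of_mul_eq_one_right e1]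
  exact (isIntegral_int δ).neg.mul
    ((((hi.add isIntegral_one).mul (hi.sub (isIntegral_int a))).add (isIntegral_int δ)).sub
      (isIntegral_int δ'))

theorem cub_unit' (hδ' : δ' = 1 ∨ δ' = -1) (h : aeval ε (cub a δ δ') = 0) :
    1 + ε ≠ 0 ∧ IsIntegral ℤ (1 + ε)⁻¹ := by
  have hi := cub_integral h
  rw [aeval_cub] at h
  have hδ2 : (δ' : K) * δ' = 1 := by rcases hδ' with rfl | rfl <;> simp
  have e1 : (1 + ε) * (-(δ' : K) * (ε * (ε - a) + δ - δ')) = 1 := by
    linear_combination -(δ' : K) * h + hδ2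
  have h0 : 1 + ε ≠ 0 := by
    intro h1
    rw [h1, zero_mul] at e1
    exact zero_ne_one e1
  refine ⟨h0, ?_⟩
  rw [inv_eq_of_mul_eq_one_right e1]
  exact (isIntegral_int δ').neg.mul
    (((hi.mul (hi.sub (isIntegral_int a))).add (isIntegral_int δ)).sub
      (isIntegral_int δ'))

end units

section real

theorem exists_root {f : ℝ → ℝ} (hf : Continuous f) {u v : ℝ} (huv : u ≤ v)
    (h : f u * f v ≤ 0) : ∃ x, u ≤ x ∧ x ≤ v ∧ f x = 0 := by
  by_cases hu : f u ≤ 0
  · by_cases hv : 0 ≤ f v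
    · obtain ⟨x, hx, hx0⟩ := intermediate_value_Icc huv hf.continuousOn ⟨hu, hv⟩
      exact ⟨x, hx.1, hx.2, hx0⟩
    · push Not at hv
      have : f u = 0 := by
        rcases hu.lt_or_eq with h1 | h1
        · exfalso; nlinarith
        · exact h1
      exact ⟨u, le_rfl, huv, this⟩
  · push Not at hu
    have hv : f v ≤ 0 := by
      by_contra hcon
      push Not at hcon
      nlinarith
    obtain ⟨x, hx, hx0⟩ := intermediate_value_Icc' huv hf.continuousOn ⟨hv, hu.le⟩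
    exact ⟨x, hx.1, hx.2, hx0⟩

/-- the signs at the four points near `0` and `-1` -/
theorem signs {t u d d' : ℝ} (ht0 : 0 < t) (ht4 : t ≤ 1 / 4) (hd : |d| ≤ 1) (hd' : |d'| ≤ 1)
    (hu : 4 + t ≤ |u|) :
    ((1 + t) * (t ^ 2 - u) + d * (1 + t) - d' * t) *
      ((1 - t) * (t ^ 2 + u) + d * (1 - t) + d' * t) ≤ 0 ∧
    ((t - 1) * (t ^ 2 - t - u) + d * t - d' * (-1 + t)) *
      ((1 + t) * (-t - t ^ 2 - u) - d * t - d' * (-1 - t)) ≤ 0 := by
  obtain ⟨a1, a2⟩ := abs_le.1 hd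
  obtain ⟨b1, b2⟩ := abs_le.1 hd'
  have p1 : -(1 + t) ≤ d * (1 + t) := by nlinarith
  have p2 : d * (1 + t) ≤ 1 + t := by nlinarith
  have p3 : -(1 - t) ≤ d * (1 - t) := by nlinarith
  have p4 : d * (1 - t) ≤ 1 - t := by nlinarith
  have p5 : -t ≤ d' * t := by nlinarith
  have p6 : d' * t ≤ t := by nlinarith
  have p7 : -t ≤ d * t := by nlinarith
  have p8 : d * t ≤ t := by nlinarith
  have p9 : -(1 - t) ≤ d' * (-1 + t) := by nlinarith
  have p10 : d' * (-1 + t) ≤ 1 - t := by nlinarith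
  have p11 : -(1 + t) ≤ d' * (-1 - t) := by nlinarith
  have p12 : d' * (-1 - t) ≤ 1 + t := by nlinarith
  rcases abs_cases u with ⟨h1, h2⟩ | ⟨h1, h2⟩
  · rw [h1] at hu
    have q1 : (1 + t) * (t ^ 2 - u) ≤ -3 := by nlinarith
    have q2 : 2 ≤ (1 - t) * (t ^ 2 + u) := by nlinarith
    have q3 : 2 ≤ (t - 1) * (t ^ 2 - t - u) := by nlinarith
    have q4 : (1 + t) * (-t - t ^ 2 - u) ≤ -3 := by nlinarith
    constructor
    · apply mul_nonpos_of_nonpos_of_nonneg <;> linarith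
    · apply mul_nonpos_of_nonneg_of_nonpos <;> linarith
  · rw [h1] at hu
    have q1 : 3 ≤ (1 + t) * (t ^ 2 - u) := by nlinarith
    have q2 : (1 - t) * (t ^ 2 + u) ≤ -2 := by nlinarith
    have q3 : (t - 1) * (t ^ 2 - t - u) ≤ -2 := by nlinarith
    have q4 : 3 ≤ (1 + t) * (-t - t ^ 2 - u) := by nlinarith
    constructor
    · apply mul_nonpos_of_nonneg_of_nonpos <;> linarith
    · apply mul_nonpos_of_nonpos_of_nonneg <;> linarith

/-- the signs near `a` -/
theorem signs' {a d d' : ℝ} (hd : |d| ≤ 1) (hd' : |d'| ≤ 1) (ha : 17 ≤ |a|) :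
    (-((a - 1) * a) + d * a - d' * (a - 1)) *
      ((a + 1) * (a + 2) + d * (a + 2) - d' * (a + 1)) ≤ 0 := by
  have h1 : |d * a| ≤ |a| := by
    rw [abs_mul]
    exact mul_le_of_le_one_left (abs_nonneg _) hd
  have h2 : |d' * (a - 1)| ≤ |a| + 1 := by
    rw [abs_mul]
    refine (mul_le_of_le_one_left (abs_nonneg _) hd').trans ?_
    have := abs_sub a 1
    rwa [abs_one] at this
  have h3 : |d * (a + 2)| ≤ |a| + 2 := by
    rw [abs_mul]
    refine (mul_le_of_le_one_left (abs_nonneg _) hd).trans ?_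
    have := abs_add_le a 2
    rwa [abs_two] at this
  have h4 : |d' * (a + 1)| ≤ |a| + 1 := by
    rw [abs_mul]
    refine (mul_le_of_le_one_left (abs_nonneg _) hd').trans ?_
    have := abs_add_le a 1
    rwa [abs_one] at this
  obtain ⟨a1, a2⟩ := abs_le.1 h1
  obtain ⟨b1, b2⟩ := abs_le.1 h2
  obtain ⟨c1, c2⟩ := abs_le.1 h3
  obtain ⟨e1, e2⟩ := abs_le.1 h4
  have h5 : 17 * |a| ≤ a ^ 2 := by
    rw [← sq_abs, pow_two]
    exact mul_le_mul_of_nonneg_right ha (abs_nonneg _)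
  have h6 := neg_abs_le a
  have h7 := le_abs_self a
  apply mul_nonpos_of_nonpos_of_nonneg <;> nlinarith

/-- the three real roots -/
theorem cub_real_roots {c : ℝ} (hc : 4 ≤ c) (hδ : δ = 1 ∨ δ = -1) (hδ' : δ' = 1 ∨ δ' = -1)
    (ha : 4 * c + 1 ≤ |(a : ℝ)|) :
    ∃ r : Fin 3 → ℝ, (∀ i, aeval (r i) (cub a δ δ') = 0) ∧ c ≤ |r 0| ∧ |r 1| * c ≤ 1 ∧
      |1 + r 2| * c ≤ 1 := by
  set f : ℝ → ℝ := fun x => x * (x + 1) * (x - a) + δ * (x + 1) - δ' * x with hf
  have hfc : Continuous f := by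
    rw [hf]; fun_prop
  have hc0 : (0 : ℝ) < c := by linarith
  set t : ℝ := 1 / c with ht
  have ht0 : 0 < t := by positivity
  have ht4 : t ≤ 1 / 4 := by
    rw [ht]
    exact one_div_le_one_div_of_le (by norm_num) hc
  have htc : t * c = 1 := by rw [ht]; field_simp
  have hd1 : |(δ : ℝ)| ≤ 1 := by rcases hδ with h | h <;> simp [h]
  have hd2 : |(δ' : ℝ)| ≤ 1 := by rcases hδ' with h | h <;> simp [h]
  have hta : 4 + t ≤ |t * (a : ℝ)| := by
    rw [abs_mul, abs_of_pos ht0]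
    have h1 : t * (4 * c + 1) ≤ t * |(a : ℝ)| := mul_le_mul_of_nonneg_left ha ht0.le
    have h2 : t * (4 * c + 1) = 4 + t := by linear_combination 4 * htc
    linarith
  obtain ⟨s1, s2⟩ := signs ht0 ht4 hd1 hd2 hta
  have s3 := signs' (a := (a : ℝ)) hd1 hd2 (by linarith)
  have h0 : f (-t) * f t ≤ 0 := by
    refine le_of_eq_of_le ?_ s1
    simp only [hf]
    ring
  have h1 : f (-1 - t) * f (-1 + t) ≤ 0 := by
    refine le_of_eq_of_le ?_ s2
    simp only [hf]
    ring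
  have h2 : f (a - 1) * f (a + 1) ≤ 0 := by
    refine le_of_eq_of_le ?_ s3
    simp only [hf]
    ring
  obtain ⟨x0, hx0, hx0', hx00⟩ := exists_root hfc (show (a : ℝ) - 1 ≤ a + 1 by linarith) h2
  obtain ⟨x1, hx1, hx1', hx10⟩ := exists_root hfc (show -t ≤ t by linarith) h0
  obtain ⟨x2, hx2, hx2', hx20⟩ := exists_root hfc (show -1 - t ≤ -1 + t by linarith) h1
  refine ⟨![x0, x1, x2], ?_, ?_, ?_, ?_⟩
  · intro i
    rw [aeval_cub]
    fin_cases i
    · exact hx00
    · exact hx10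
    · exact hx20
  · show c ≤ |x0|
    have h3 : |(a : ℝ)| - 1 ≤ |x0| := by
      have := abs_sub_abs_le_abs_sub (a : ℝ) x0
      have h4 : |(a : ℝ) - x0| ≤ 1 := by
        rw [abs_le]; constructor <;> linarith
      linarith
    linarith
  · show |x1| * c ≤ 1
    have h3 : |x1| ≤ t := abs_le.2 ⟨hx1, hx1'⟩
    rw [← htc]
    exact mul_le_mul_of_nonneg_right h3 hc0.le
  · show |1 + x2| * c ≤ 1
    have h3 : |1 + x2| ≤ t := abs_le.2 ⟨by linarith, by linarith⟩
    exact (mul_le_mul_of_nonneg_right h3 hc0.le).trans htc.le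

end real

section emb

/-- the embedding of the field given by a real root -/
theorem exists_emb {K : Type*} [Field K] [Algebra ℚ K] [FiniteDimensional ℚ K] {f : ℚ[X]}
    (hf : Irreducible f)
    (hd : f.natDegree = Module.finrank ℚ K) {ε : K} (hε : aeval ε f = 0) {r : ℝ}
    (hr : aeval r f = 0) : ∃ s : K →+* ℝ, s ε = r := by
  have := Fact.mk hf
  let φ : AdjoinRoot f →ₐ[ℚ] K := AdjoinRoot.liftAlgHom f (Algebra.ofId ℚ K) ε (by
    simpa [aeval_def] using hε)
  let ψ : AdjoinRoot f →ₐ[ℚ] ℝ := AdjoinRoot.liftAlgHom f (Algebra.ofId ℚ ℝ) r (by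
    simpa [aeval_def] using hr)
  have hinj : Function.Injective φ := φ.toRingHom.injective
  have hfin : Module.finrank ℚ (AdjoinRoot f) = Module.finrank ℚ K := by
    rw [← hd, (AdjoinRoot.powerBasis hf.ne_zero).finrank, AdjoinRoot.powerBasis_dim]
  have : FiniteDimensional ℚ (AdjoinRoot f) := (AdjoinRoot.powerBasis hf.ne_zero).finite
  have hsur : Function.Surjective φ :=
    (LinearMap.injective_iff_surjective_of_finrank_eq_finrank (f := φ.toLinearMap) hfin).1 hinj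
  let e := AlgEquiv.ofBijective φ ⟨hinj, hsur⟩
  refine ⟨(ψ.comp e.symm.toAlgHom).toRingHom, ?_⟩
  have h1 : e (AdjoinRoot.root f) = ε := by
    show φ (AdjoinRoot.root f) = ε
    exact AdjoinRoot.liftAlgHom_root ..
  show ψ (e.symm ε) = r
  rw [← h1, AlgEquiv.symm_apply_apply]
  exact AdjoinRoot.liftAlgHom_root ..

end emb

end Pool.Agent.Q115.KR
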