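import Pool.Agent.Q115.KR.All
set_option autoImplicit false

/-!
A family of units indexed by the archimedean places of a Galois number field, equivariant under the
Galois group, each of them large at its place and small at the other ones.
-/

namespace Pool.Agent.Q115.KR

open NumberField
open scoped Classical

universe u

section action

variable {K : Type u} [Field K] [NumberField K]

/-- the action of the Galois group on the units -/
noncomputable def actU (g : Gal(K/ℚ)) : (𝓞 K)ˣ →* (𝓞 K)ˣ :=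
  Units.map (RingOfIntegers.mapRingEquiv (g : K ≃+* K) : 𝓞 K →* 𝓞 K)

theorem coe_actU (g : Gal(K/ℚ)) (x : (𝓞 K)ˣ) : (actU g x : K) = g (x : K) := rfl

theorem ext_unit {x y : (𝓞 K)ˣ} (h : ((x : 𝓞 K) : K) = ((y : 𝓞 K) : K)) : x = y :=
  Units.ext (RingOfIntegers.ext h)

theorem actU_mul (g h : Gal(K/ℚ)) (x : (𝓞 K)ˣ) : actU (g * h) x = actU g (actU h x) := by
  apply ext_unit
  show (actU (g * h) x : K) = (actU g (actU h x) : K)
  rw [coe_actU, coe_actU, coe_actU]
  rfl

theorem place_actU (g : Gal(K/ℚ)) (w : InfinitePlace K) (x : (𝓞 K)ˣ) :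
    w (actU g x : K) = (g⁻¹ • w) (x : K) := by
  rw [coe_actU, InfinitePlace.smul_apply]
  rfl

/-- the norm from the decomposition group -/
noncomputable def nu (v : InfinitePlace K) (x : (𝓞 K)ˣ) : (𝓞 K)ˣ :=
  ∏ s : MulAction.stabilizer Gal(K/ℚ) v, actU (s : Gal(K/ℚ)) x

theorem actU_nu (v : InfinitePlace K) (x : (𝓞 K)ˣ) (s : Gal(K/ℚ)) (hs : s • v = v) :
    actU s (nu v x) = nu v x := by
  unfold nu
  rw [map_prod]
  simp only [← actU_mul]
  exact Fintype.prod_equiv (Equiv.mulLeft (⟨s, hs⟩ : MulAction.stabilizer Gal(K/ℚ) v)) _ _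
    fun _ => rfl

theorem place_nu (v w : InfinitePlace K) (x : (𝓞 K)ˣ) :
    w (nu v x : K) = ∏ s : MulAction.stabilizer Gal(K/ℚ) v, ((s : Gal(K/ℚ))⁻¹ • w) (x : K) := by
  unfold nu
  rw [Units.coe_prod, map_prod, map_prod]
  exact Finset.prod_congr rfl fun s _ => place_actU _ _ _

theorem pos_place (w : InfinitePlace K) (x : (𝓞 K)ˣ) : 0 < w (x : K) :=
  InfinitePlace.pos_iff.2 (Units.coe_ne_zero x)

theorem nu_large {v : InfinitePlace K} {x : (𝓞 K)ˣ} (h : 1 < v (x : K)) :
    1 < v (nu v x : K) := by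
  rw [place_nu]
  have e : ∀ s : MulAction.stabilizer Gal(K/ℚ) v, ((s : Gal(K/ℚ))⁻¹ • v) (x : K) = v (x : K) := by
    intro s
    have h1 : (s : Gal(K/ℚ))⁻¹ • v = v := by
      rw [inv_smul_eq_iff]
      exact s.2.symm
    rw [h1]
  rw [Finset.prod_congr rfl fun s _ => e s, Finset.prod_const, Finset.card_univ]
  exact one_lt_pow₀ h Fintype.card_ne_zero

theorem nu_small {v w : InfinitePlace K} {x : (𝓞 K)ˣ} (hw : w ≠ v)
    (h : ∀ w', w' ≠ v → w' (x : K) < 1) : w (nu v x : K) < 1 := by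
  rw [place_nu]
  have hs : ∀ s : MulAction.stabilizer Gal(K/ℚ) v, ((s : Gal(K/ℚ))⁻¹ • w) (x : K) < 1 := by
    intro s
    apply h
    intro h1
    rw [inv_smul_eq_iff] at h1
    exact hw (h1.trans s.2)
  rw [← Finset.mul_prod_erase _ _ (Finset.mem_univ (1 : MulAction.stabilizer Gal(K/ℚ) v))]
  refine mul_lt_one_of_nonneg_of_lt_one_left (apply_nonneg _ _) (hs 1) ?_
  exact Finset.prod_le_one (fun s _ => apply_nonneg _ _) fun s _ => (hs s).le

end action

/-- the equivariant family of units -/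
structure EqUnits {K : Type u} [Field K] [NumberField K] (e : InfinitePlace K → (𝓞 K)ˣ) :
    Prop where
  large : ∀ v : InfinitePlace K, 1 < v (e v : K)
  small : ∀ v w : InfinitePlace K, w ≠ v → w (e v : K) < 1
  equivariant : ∀ (g : Gal(K/ℚ)) (v : InfinitePlace K), (e (g • v) : K) = g (e v : K)

theorem exists_eqUnits {K : Type u} [Field K] [NumberField K] [IsGalois ℚ K] {t : ℕ} (ht : 1 ≤ t)
    (v : Fin (t + 1) ≃ InfinitePlace K) : ∃ e : InfinitePlace K → (𝓞 K)ˣ, EqUnits e := by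
  obtain ⟨e', he'⟩ := exists_unitsAt ht v v.injective
  set v₀ : InfinitePlace K := v 0 with hv₀
  set x : (𝓞 K)ˣ := e' 0 with hx
  have hx1 : 1 < v₀ (x : K) := (he' 0).1
  have hx2 : ∀ w, w ≠ v₀ → w (x : K) < 1 := by
    intro w hw
    have h1 := (he' 0).2 (v.symm w) (by
      intro h
      apply hw
      rw [hv₀, ← h, Equiv.apply_symm_apply])
    rwa [Equiv.apply_symm_apply] at h1
  have htr : ∀ w : InfinitePlace K, ∃ g : Gal(K/ℚ), g • v₀ = w := fun w =>
    InfinitePlace.exists_smul_eq_of_comap_eq (Subsingleton.elim _ _)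
  choose g hg using htr
  refine ⟨fun w => actU (g w) (nu v₀ x), ?_, ?_, ?_⟩
  · intro w
    rw [place_actU]
    have : (g w)⁻¹ • w = v₀ := by rw [inv_smul_eq_iff, hg]
    rw [this]
    exact nu_large hx1
  · intro w w' hw
    rw [place_actU]
    apply nu_small _ hx2
    intro h
    rw [inv_smul_eq_iff, hg] at h
    exact hw h
  · intro h w
    rw [← coe_actU, ← actU_mul]
    have h1 : actU (g (h • w)) (nu v₀ x) = actU (h * g w) (nu v₀ x) := by
      have e1 : g (h • w) = (h * g w) * ((h * g w)⁻¹ * g (h • w)) := by group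
      rw [e1, actU_mul]
      congr 1
      apply actU_nu
      rw [mul_smul, hg, inv_smul_eq_iff, mul_smul, hg]
    rw [h1]

section descent

variable {K : Type u} [Field K] [NumberField K] [IsGalois ℚ K]

open Polynomial

theorem exists_int_of_fixed {x : K} (hx : IsIntegral ℤ x) (h : ∀ g : Gal(K/ℚ), g x = x) :
    ∃ n : ℤ, (algebraMap ℤ K) n = x := by
  obtain ⟨y, hy⟩ := (IsGalois.mem_range_algebraMap_iff_fixed (F := ℚ) x).2 h
  have hyi : IsIntegral ℤ y := by
    rw [← hy] at hx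
    exact (isIntegral_algebraMap_iff (algebraMap ℚ K).injective).1 hx
  obtain ⟨n, hn⟩ := IsIntegrallyClosed.isIntegral_iff.1 hyi
  refine ⟨n, ?_⟩
  rw [← hy, ← hn]
  exact (IsScalarTower.algebraMap_apply ℤ ℚ K n)

/-- the polynomial `∏_v (1 - X^(q+1) / (e_v^M)^(q+1))` -/
noncomputable def apoly (q M : ℕ) (e : InfinitePlace K → (𝓞 K)ˣ) : K[X] :=
  ∏ v : InfinitePlace K, (1 - C ((((e v : K) ^ M) ^ (q + 1))⁻¹) * X ^ (q + 1))

theorem integral_inv (x : (𝓞 K)ˣ) : IsIntegral ℤ ((x : K)⁻¹) := by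
  have h1 : (x : K)⁻¹ = ((x⁻¹ : (𝓞 K)ˣ) : K) := by
    rw [inv_eq_iff_eq_inv]
    refine eq_inv_of_mul_eq_one_left ?_
    rw [← map_mul, Units.mul_inv, map_one]
  rw [h1]
  exact RingOfIntegers.isIntegral_coe _

theorem exists_int_poly (q M : ℕ) {e : InfinitePlace K → (𝓞 K)ˣ} (he : EqUnits e) :
    ∃ A : ℤ[X], A.map (algebraMap ℤ K) = apoly q M e := by
  have hfix : ∀ g : Gal(K/ℚ), (apoly q M e).map (g : K →+* K) = apoly q M e := by
    intro g
    unfold apoly
    rw [Polynomial.map_prod]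
    refine Fintype.prod_equiv (MulAction.toPerm g) _ _ fun v => ?_
    have h1 : ((e (g • v) : K)) = g (e v : K) := he.equivariant g v
    simp only [Polynomial.map_sub, Polynomial.map_one, Polynomial.map_mul, Polynomial.map_pow,
      map_C, map_X, MulAction.toPerm_apply, h1]
    simp only [RingHom.coe_coe, map_inv₀, map_pow]
  have hint : ∀ n, IsIntegral ℤ ((apoly q M e).coeff n) := by
    have h1 : apoly q M e ∈ Polynomial.lifts (algebraMap (integralClosure ℤ K) K) := by
      unfold apoly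
      refine Subsemiring.prod_mem _ fun v _ => ?_
      have hi : IsIntegral ℤ ((((e v : K) ^ M) ^ (q + 1))⁻¹) := by
        rw [← inv_pow, ← inv_pow]
        exact ((integral_inv (e v)).pow _).pow _
      refine ⟨1 - C (⟨_, hi⟩ : integralClosure ℤ K) * X ^ (q + 1), ?_⟩
      simp only [coe_mapRingHom, Polynomial.map_sub, Polynomial.map_one, Polynomial.map_mul,
        Polynomial.map_pow, map_C, map_X]
      rfl
    intro n
    obtain ⟨y, hy⟩ := (Polynomial.lifts_iff_coeff_lifts _).1 h1 n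
    rw [← hy]
    exact y.2
  have hcoef : apoly q M e ∈ Polynomial.lifts (algebraMap ℤ K) := by
    rw [Polynomial.lifts_iff_coeff_lifts]
    intro n
    obtain ⟨z, hz⟩ := exists_int_of_fixed (hint n) fun g => by
      have h1 := congrArg (fun P => P.coeff n) (hfix g)
      simpa using h1
    exact ⟨z, hz⟩
  obtain ⟨A, hA⟩ := hcoef
  exact ⟨A, hA⟩

theorem apoly_eq_mv {q M t : ℕ} (v : Fin (t + 1) ≃ InfinitePlace K)
    (e : InfinitePlace K → (𝓞 K)ˣ) :
    ∏ k : Fin (t + 1), (1 - MvPolynomial.C (((e (v k) : K) ^ M) ^ (q + 1))⁻¹ *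
      MvPolynomial.X 1 ^ (q + 1) : MvPolynomial (Fin (1 + 1)) K) =
      aeval (MvPolynomial.X 1 : MvPolynomial (Fin (1 + 1)) K) (apoly q M e) := by
  unfold apoly
  rw [map_prod]
  refine Fintype.prod_equiv v _ _ fun k => ?_
  simp only [map_sub, map_one, map_mul, map_pow, aeval_X, aeval_C]
  rfl

end descent

end Pool.Agent.Q115.KR
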