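import Pool.Agent.TH265.V.Main
set_option autoImplicit false

/-!
Roots of which one is much greater than the other ones, at some place.
-/

namespace Pool.Agent.Q115.KR

open Pool.Agent.TH265.V

variable {r : ℕ} {a : Fin (r + 1) → ℂ} {i0 : Fin (r + 1)}

theorem sep_half (ha : ∀ i, a i ≠ 0) (h : ∀ i, i ≠ i0 → 2 * ‖a i‖ ≤ ‖a i0‖) :
    Sep (1 / 2) a i0 := by
  refine ⟨by norm_num, le_rfl, ha, fun i => ?_, fun i hi => ?_⟩
  · by_cases hi : i = i0
    · rw [hi]
    · have h1 := h i hi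
      have := norm_nonneg (a i)
      linarith
  · have h1 := h i hi
    have h2 := norm_sub_norm_le (a i0) (a i)
    rw [norm_sub_rev] at h2
    linarith

theorem Dd_ge {d : ℝ} (hS : Sep d a i0) (j : Fin (r + 1)) :
    Real.log ‖a i0‖ - Real.log ‖a j‖ ≤ Dd a i0 := by
  refine Finset.single_le_sum (f := fun j => Real.log ‖a i0‖ - Real.log ‖a j‖)
    (fun i _ => ?_) (Finset.mem_univ j)
  have := Real.log_le_log (norm_pos_iff.2 (hS.ne i)) (hS.le i)
  linarith

theorem Dd_ge_two {d : ℝ} (hS : Sep d a i0) {j k : Fin (r + 1)} (hjk : j ≠ k) :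
    (Real.log ‖a i0‖ - Real.log ‖a j‖) + (Real.log ‖a i0‖ - Real.log ‖a k‖) ≤ Dd a i0 := by
  classical
  have h1 : ∑ i ∈ ({j, k} : Finset (Fin (r + 1))), (Real.log ‖a i0‖ - Real.log ‖a i‖) ≤
      Dd a i0 := by
    refine Finset.sum_le_univ_sum_of_nonneg fun i => ?_
    have := Real.log_le_log (norm_pos_iff.2 (hS.ne i)) (hS.le i)
    linarith
  rwa [Finset.sum_pair hjk] at h1

end Pool.Agent.Q115.KR
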